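import Pool.Agent.Q31.PK.Stage

set_option autoImplicit false

/-!
# The periodic chain of the pretzel knots P(3, -(2q+3), 2r+1)

Every point is fixed by all `x i`, `g i`.
-/

namespace Pool.Agent.Q31.PK

open Pool.Agent.TH821.Hex Pool.Agent.Q31.IT

/-- The relations between `x i` and `g i = (w i)⁻¹`: with `a i = x i g i (x i)⁻¹ (u i)⁻ᵠ g i` and
`b i = (g i)⁻¹ (u i)ᵠ x i (g i)ʳ`, where `u i = x i (g i)⁻¹`, they are `a (i+1) = a i w i` and
`b (i+1) = x i b i`. -/
structure Rel {P : Type*} [Group P] {n : ℕ} (q r : ℕ) (x g : ZMod n → P) : Prop where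
  relA : ∀ i, x (i + 1) * g (i + 1) * (x (i + 1))⁻¹ * ((x (i + 1) * (g (i + 1))⁻¹) ^ q)⁻¹ *
    g (i + 1) = x i * g i * (x i)⁻¹ * ((x i * (g i)⁻¹) ^ q)⁻¹
  relB : ∀ i, (g (i + 1))⁻¹ * (x (i + 1) * (g (i + 1))⁻¹) ^ q * x (i + 1) * g (i + 1) ^ r =
    x i * ((g i)⁻¹ * (x i * (g i)⁻¹) ^ q * x i * g i ^ r)

theorem Rel.map {P Q : Type*} [Group P] [Group Q] {n : ℕ} {q r : ℕ} {x g : ZMod n → P}
    (R : Rel q r x g) (φ : P →* Q) : Rel q r (fun i => φ (x i)) (fun i => φ (g i)) := by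
  constructor
  · intro i
    have := congrArg φ (R.relA i)
    simpa only [map_mul, map_inv, map_pow] using this
  · intro i
    have := congrArg φ (R.relB i)
    simpa only [map_mul, map_inv, map_pow] using this

theorem follows_pow {Ω : Type*} [CompleteLinearOrder Ω] (f : Ω ≃o Ω) (q : ℕ) :
    Follows f (f ^ q) where
  comm v := by rw [← pow_s, pow_s']
  up _ h := up_pow h q
  down _ h := down_pow h q

section chain
variable {Ω : Type*} [CompleteLinearOrder Ω] {n q r : ℕ} {x g : ZMod n → Ω ≃o Ω}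

/-- `u i ^ q`. -/
def fQ (q : ℕ) (x g : ZMod n → Ω ≃o Ω) (i : ZMod n) : Ω ≃o Ω := (x i * (g i)⁻¹) ^ q

/-- `a i`. -/
def fa (q : ℕ) (x g : ZMod n → Ω ≃o Ω) (i : ZMod n) : Ω ≃o Ω := aa (x i) (g i) (fQ q x g i) * g i

/-- `b i`. -/
def fb (q r : ℕ) (x g : ZMod n → Ω ≃o Ω) (i : ZMod n) : Ω ≃o Ω :=
  (g i)⁻¹ * fQ q x g i * x i * g i ^ r

theorem fol (i : ZMod n) : Follows (x i * (g i)⁻¹) (fQ q x g i) := follows_pow _ q

theorem Rel.fa_succ (R : Rel q r x g) (i : ZMod n) :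
    fa q x g (i + 1) = aa (x i) (g i) (fQ q x g i) := R.relA i

theorem Rel.fb_succ (R : Rel q r x g) (i : ZMod n) :
    fb q r x g (i + 1) = x i * fb q r x g i := R.relB i

theorem fa_dual (i : ZMod n) : fa (Ω := Ωᵒᵈ) q (fun i => dualHom Ω (x i))
    (fun i => dualHom Ω (g i)) i = dualHom Ω (fa q x g i) := by
  unfold fa aa fQ; simp only [map_mul, map_inv, map_pow]

theorem fb_dual (i : ZMod n) : fb (Ω := Ωᵒᵈ) q r (fun i => dualHom Ω (x i))
    (fun i => dualHom Ω (g i)) i = dualHom Ω (fb q r x g i) := by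
  unfold fb fQ; simp only [map_mul, map_inv, map_pow]

theorem fb_app (i : ZMod n) (p : Ω) :
    fb q r x g i p = (g i)⁻¹ (fQ q x g i (x i ((g i ^ r) p))) := rfl

theorem Rel.fb_app' (R : Rel q r x g) (i : ZMod n) (p : Ω) :
    fb q r x g (i + 1) p = x i ((g i)⁻¹ (fQ q x g i (x i ((g i ^ r) p)))) := by
  rw [R.fb_succ]; rfl

/-- `a b` at `p` before the stage. -/
theorem fab (i : ZMod n) (p : Ω) :
    fa q x g i (fb q r x g i p) = x i ((g i ^ (r + 1)) p) := by
  have : fa q x g i * fb q r x g i = x i * g i ^ (r + 1) := by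
    unfold fa fb aa; rw [pow_succ']; group
  exact congrArg (fun f : Ω ≃o Ω => f p) this

/-- `a b` at `p` after the stage. -/
theorem Rel.fab' (R : Rel q r x g) (i : ZMod n) (p : Ω) :
    fa q x g (i + 1) (fb q r x g (i + 1) p) = x i (x i ((g i ^ r) p)) := by
  rw [R.fa_succ, R.fb_app']
  exact key (fol i) _

/-- The trap: `p ≤ a b p` and `b p ≤ a ^ r p`, not both equalities. -/
def Trap (r : ℕ) (a b : Ω ≃o Ω) (p : Ω) : Prop :=
  p ≤ a (b p) ∧ b p ≤ (a ^ r) p ∧ ¬ (p = a (b p) ∧ b p = (a ^ r) p)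

/-- The dual trap. -/
def Trap' (r : ℕ) (a b : Ω ≃o Ω) (p : Ω) : Prop :=
  a (b p) ≤ p ∧ (a ^ r) p ≤ b p ∧ ¬ (p = a (b p) ∧ b p = (a ^ r) p)

theorem trap'_dual {a b : Ω ≃o Ω} {p : Ω} (h : Trap' r a b p) :
    Trap (Ω := Ωᵒᵈ) r (dualHom Ω a) (dualHom Ω b) (OrderDual.toDual p) := by
  unfold Trap
  rw [← map_pow]
  exact h

/-- The trap goes back by one level, with strict inequalities. -/
theorem Rel.trap_back (R : Rel q r x g) (hr : 1 ≤ r) (i : ZMod n) (p : Ω)
    (h : Trap r (fa q x g (i + 1)) (fb q r x g (i + 1)) p) :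
    p < g i p ∧ Trap r (fa q x g i) (fb q r x g i) p := by
  obtain ⟨h1, h2, h3⟩ := h
  rw [R.fab', R.fb_app', R.fa_succ] at h3
  rw [R.fab'] at h1
  rw [R.fb_app', R.fa_succ] at h2
  obtain ⟨h4, h5, h6⟩ := back (fol i) hr rfl h2 h1 h3
  refine ⟨h4, ?_, ?_, ?_⟩
  · rw [fab]; exact h5.le
  · rw [fb_app]; exact h6.le
  · rintro ⟨h7, -⟩
    rw [fab] at h7
    exact absurd h7 h5.ne

theorem Rel.step_a (R : Rel q r x g) (i : ZMod n) (p : Ω) :
    fa q x g (i + 1) (g i p) = fa q x g i p := by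
  rw [R.fa_succ]; rfl

theorem Rel.no_trap [NeZero n] (R : Rel q r x g) (hr : 1 ≤ r) (i : ZMod n) (p : Ω) :
    ¬ Trap r (fa q x g i) (fb q r x g i) p := by
  intro h
  have key := all_of_pred (S := fun j => Trap r (fa q x g j) (fb q r x g j) p)
    (fun j hj => (R.trap_back hr j p hj).2) h
  refine no_decr (f := fun j => fa q x g j p) ?_
  intro j
  have h1 := (R.trap_back hr j p (key (j + 1))).1
  show fa q x g (j + 1) p < fa q x g j p
  rw [← R.step_a j p]
  exact (fa q x g (j + 1)).lt_iff_lt.mpr h1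

theorem Rel.no_trap' [NeZero n] (R : Rel q r x g) (hr : 1 ≤ r) (i : ZMod n) (p : Ω) :
    ¬ Trap' r (fa q x g i) (fb q r x g i) p := by
  intro h
  apply (R.map (dualHom Ω)).no_trap hr i (OrderDual.toDual p)
  rw [fa_dual, fb_dual]
  exact trap'_dual h

/-- `p` is up at `i`. -/
def Up (q r : ℕ) (x g : ZMod n → Ω ≃o Ω) (i : ZMod n) (p : Ω) : Prop :=
  p < fa q x g i (fb q r x g i p)

/-- `p` is down at `i`. -/
def Down (q r : ℕ) (x g : ZMod n → Ω ≃o Ω) (i : ZMod n) (p : Ω) : Prop :=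
  fa q x g i (fb q r x g i p) < p

theorem down_dual {i : ZMod n} {p : Ω} (h : Down q r x g i p) :
    Up (Ω := Ωᵒᵈ) q r (fun i => dualHom Ω (x i)) (fun i => dualHom Ω (g i)) i
      (OrderDual.toDual p) := by
  unfold Up
  rw [fa_dual, fb_dual]
  exact h

theorem Rel.up_spec [NeZero n] (R : Rel q r x g) (hr : 1 ≤ r) {i : ZMod n} {p : Ω}
    (h : Up q r x g i p) :
    p < fb q r x g i p ∧ (fa q x g i ^ r) p < fb q r x g i p := by
  have h1 : (fa q x g i ^ r) p < fb q r x g i p := by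
    by_contra h1
    rw [not_lt] at h1
    exact R.no_trap hr i p ⟨h.le, h1, fun h2 => absurd h2.1 (ne_of_lt h)⟩
  refine ⟨?_, h1⟩
  rcases le_or_gt p (fa q x g i p) with h2 | h2
  · exact lt_of_le_of_lt (up_pow h2 r) h1
  · rw [← (fa q x g i).lt_iff_lt]
    exact h2.trans h

theorem Rel.down_spec [NeZero n] (R : Rel q r x g) (hr : 1 ≤ r) {i : ZMod n} {p : Ω}
    (h : Down q r x g i p) :
    fb q r x g i p < p ∧ fb q r x g i p < (fa q x g i ^ r) p := by
  obtain ⟨h2, h4⟩ := (R.map (dualHom Ω)).up_spec hr (down_dual h)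
  rw [fb_dual] at h2
  rw [fa_dual, fb_dual, ← map_pow] at h4
  exact ⟨h2, h4⟩

theorem Rel.eq_spec [NeZero n] (R : Rel q r x g) (hr : 1 ≤ r) {i : ZMod n} {p : Ω}
    (h1 : ¬ Up q r x g i p) (h2 : ¬ Down q r x g i p) :
    fa q x g i p = p ∧ fb q r x g i p = p := by
  have h : p = fa q x g i (fb q r x g i p) :=
    le_antisymm (not_lt.mp h2) (not_lt.mp h1)
  have h3 : (fa q x g i ^ r) p ≤ fb q r x g i p := by
    by_contra h3
    rw [not_le] at h3
    exact R.no_trap hr i p ⟨h.le, h3.le, fun h4 => absurd h4.2 h3.ne⟩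
  have h4 : fb q r x g i p ≤ (fa q x g i ^ r) p := by
    by_contra h4
    rw [not_le] at h4
    exact R.no_trap' hr i p ⟨h.ge, h4.le, fun h5 => absurd h5.2 h4.ne'⟩
  have h5 : fb q r x g i p = (fa q x g i ^ r) p := le_antisymm h4 h3
  have h6 : (fa q x g i ^ (r + 1)) p = p := by
    rw [pow_s, ← h5, ← h]
  have h7 : fa q x g i p = p := by
    rcases lt_trichotomy (fa q x g i p) p with h8 | h8 | h8
    · exfalso
      have h9 : (fa q x g i ^ (r + 1)) p ≤ fa q x g i p := by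
        rw [pow_s]; exact (fa q x g i).le_iff_le.mpr (down_pow h8.le _)
      rw [h6] at h9
      exact absurd h8 (not_lt.mpr h9)
    · exact h8
    · exfalso
      have h9 : fa q x g i p ≤ (fa q x g i ^ (r + 1)) p := by
        rw [pow_s]; exact (fa q x g i).le_iff_le.mpr (up_pow h8.le _)
      rw [h6] at h9
      exact absurd h8 (not_lt.mpr h9)
  exact ⟨h7, by rw [h5, fix_pow h7]⟩

theorem Rel.up_succ [NeZero n] (R : Rel q r x g) (hr : 1 ≤ r) (i : ZMod n) {p : Ω}
    (h : Up q r x g i p) : Up q r x g (i + 1) p := by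
  by_contra hcon
  obtain ⟨h1, h3⟩ := R.up_spec hr h
  have h4 : fb q r x g (i + 1) p ≤ p ∧ fa q x g (i + 1) (fb q r x g (i + 1) p) ≤ p := by
    by_cases hd : Down q r x g (i + 1) p
    · exact ⟨(R.down_spec hr hd).1.le, le_of_lt hd⟩
    · obtain ⟨h5, h6⟩ := R.eq_spec hr hcon hd
      rw [h6, h5]
      exact ⟨le_rfl, le_rfl⟩
  obtain ⟨h5, h6⟩ := h4
  rw [R.fab'] at h6
  rw [R.fb_app'] at h5
  have h2 : p < fa q x g i (fb q r x g i p) := h
  rw [fab] at h2
  exact forth (fol i) rfl h1 h2 h3 h5 h6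

theorem Rel.up_all [NeZero n] (R : Rel q r x g) (hr : 1 ≤ r) {i : ZMod n} {p : Ω}
    (h : Up q r x g i p) (j : ZMod n) : Up q r x g j p :=
  all_of_succ (S := fun j => Up q r x g j p) (fun j hj => R.up_succ hr j hj) h j

theorem Rel.down_all [NeZero n] (R : Rel q r x g) (hr : 1 ≤ r) {i : ZMod n} {p : Ω}
    (h : Down q r x g i p) (j : ZMod n) : Down q r x g j p := by
  have := (R.map (dualHom Ω)).up_all hr (down_dual h) j
  unfold Up at this
  rw [fa_dual, fb_dual] at this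
  exact this

/-- A common fixed point of all `x i`, `g i`. -/
def Glob (x g : ZMod n → Ω ≃o Ω) (m : Ω) : Prop := ∀ j, x j m = m ∧ g j m = m

theorem Rel.glob [NeZero n] (R : Rel q r x g) (hr : 1 ≤ r) {i : ZMod n} {p : Ω}
    (h1 : ¬ Up q r x g i p) (h2 : ¬ Down q r x g i p) : Glob x g p := by
  have key : ∀ j, fa q x g j p = p ∧ fb q r x g j p = p := fun j =>
    R.eq_spec hr (fun h => h1 (R.up_all hr h i)) (fun h => h2 (R.down_all hr h i))
  intro j
  obtain ⟨h3, h4⟩ := key j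
  obtain ⟨h5, h6⟩ := key (j + 1)
  constructor
  · have h7 : fb q r x g (j + 1) p = x j (fb q r x g j p) := by rw [R.fb_succ]; rfl
    rw [h6, h4] at h7
    exact h7.symm
  · have h7 := R.step_a j p
    rw [h3] at h7
    exact (fa q x g (j + 1)).injective (h7.trans h5.symm)

/-- The points that are not separated from `p` by common fixed points. -/
def Near (x g : ZMod n → Ω ≃o Ω) (p v : Ω) : Prop :=
  ∀ m, Glob x g m → (m < p → m < v) ∧ (p < m → v < m)

theorem near_map {p v : Ω} (h : Near x g p v) (f : Ω ≃o Ω) (hf : ∀ m, Glob x g m → f m = m) :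
    Near x g p (f v) := by
  intro m hm
  obtain ⟨h1, h2⟩ := h m hm
  have h3 := hf m hm
  constructor
  · intro h4
    rw [← h3]; exact f.lt_iff_lt.mpr (h1 h4)
  · intro h4
    rw [← h3]; exact f.lt_iff_lt.mpr (h2 h4)

theorem inv_fix {f : Ω ≃o Ω} {m : Ω} (h : f m = m) : f⁻¹ m = m := by
  conv_lhs => rw [← h]
  exact inv_a f m

theorem glob_Q {m : Ω} (h : Glob x g m) (i : ZMod n) : fQ q x g i m = m := by
  refine fix_pow ?_ q
  rw [ma, inv_fix (h i).2, (h i).1]

theorem glob_a {m : Ω} (h : Glob x g m) (i : ZMod n) : fa q x g i m = m := by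
  show x i (g i ((x i)⁻¹ ((fQ q x g i)⁻¹ (g i m)))) = m
  rw [(h i).2, inv_fix (glob_Q h i), inv_fix (h i).1, (h i).2, (h i).1]

theorem glob_b {m : Ω} (h : Glob x g m) (i : ZMod n) : fb q r x g i m = m := by
  rw [fb_app, fix_pow (h i).2, (h i).1, glob_Q h i, inv_fix (h i).2]

theorem Rel.near_up [NeZero n] (R : Rel q r x g) (hr : 1 ≤ r) {i : ZMod n} {p v : Ω}
    (h : Up q r x g i p) (hv : Near x g p v) (j : ZMod n) : Up q r x g j v := by
  have hp : ∀ j, Up q r x g j p := R.up_all hr h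
  have hg : ∀ {w : Ω}, Near x g p w → ¬ Glob x g w := by
    intro w hw hgw
    obtain ⟨h1, h2⟩ := hw w hgw
    rcases lt_trichotomy w p with h3 | h3 | h3
    · exact lt_irrefl _ (h1 h3)
    · have h4 : p < fa q x g i (fb q r x g i p) := h
      rw [← h3, glob_b hgw, glob_a hgw] at h4
      exact lt_irrefl _ h4
    · exact lt_irrefl _ (h2 h3)
  by_contra hcon
  have hd : Down q r x g j v := by
    by_contra hd
    exact hg hv (R.glob hr hcon hd)
  have hd' : (fa q x g j * fb q r x g j) v < v := hd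
  have hp' : p < (fa q x g j * fb q r x g j) p := hp j
  have hglob : ∀ m, (fa q x g j * fb q r x g j) m = m → Glob x g m := by
    intro m hm
    apply R.glob hr (i := j)
    · intro h1
      have h2 : m < (fa q x g j * fb q r x g j) m := h1
      rw [hm] at h2
      exact lt_irrefl _ h2
    · intro h1
      have h2 : (fa q x g j * fb q r x g j) m < m := h1
      rw [hm] at h2
      exact lt_irrefl _ h2
  rcases lt_trichotomy p v with h1 | h1 | h1
  · obtain ⟨m, m1, m2, m3⟩ := fixUD _ h1.le hp' hd'.le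
    exact absurd (((hv m (hglob m m3)).2 m1)) (not_lt.mpr m2)
  · rw [← h1] at hd'
    exact absurd hp' (not_lt.mpr hd'.le)
  · obtain ⟨m, m1, m2, m3⟩ := fixNU _ h1.le hd'.le hp'
    exact absurd (((hv m (hglob m m3)).1 m2)) (not_lt.mpr m1)

theorem Rel.pot [NeZero n] (R : Rel q r x g) (hr : 1 ≤ r) {i : ZMod n} {p : Ω}
    (h : Up q r x g i p) :
    min (fb q r x g i p) (((fa q x g i) ^ r)⁻¹ (fb q r x g i p)) <
      min (fb q r x g (i + 1) p) (((fa q x g (i + 1)) ^ r)⁻¹ (fb q r x g (i + 1) p)) := by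
  have hb : fb q r x g (i + 1) p = x i (fb q r x g i p) := by rw [R.fb_succ]; rfl
  rw [hb]
  have nz : Near x g p (fb q r x g i p) :=
    near_map (fun m _ => ⟨id, id⟩) _ (fun m hm => glob_b hm i)
  set z := fb q r x g i p with hz
  have nxz : Near x g p (x i z) := near_map nz _ (fun m hm => (hm i).1)
  have ny : Near x g p ((fa q x g (i + 1) ^ r)⁻¹ (x i z)) :=
    near_map nxz _ (fun m hm => inv_fix (fix_pow (glob_a hm (i + 1)) r))
  set y := (fa q x g (i + 1) ^ r)⁻¹ (x i z) with hy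
  have hup : ∀ v, Near x g p v → ∀ j, Up q r x g j v := fun v hv j => R.near_up hr h hv j
  have C : ∀ v, Near x g p v → v < x i ((g i ^ (r + 1)) v) := by
    intro v hv
    have := hup v hv i
    unfold Up at this
    rwa [fab] at this
  have c1 := C z nz
  have n1 : Near x g p (((g i ^ (r + 1))⁻¹) z) :=
    near_map nz _ (fun m hm => inv_fix (fix_pow (hm i).2 (r + 1)))
  have c2 : ((g i ^ (r + 1))⁻¹) z < x i z := by
    have := C _ n1
    rwa [a_inv] at this
  have n2 : Near x g p (((g i ^ r)⁻¹) z) :=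
    near_map nz _ (fun m hm => inv_fix (fix_pow (hm i).2 r))
  have c3 : ((g i ^ r)⁻¹) z < (g i)⁻¹ (fQ q x g i (x i z)) := by
    have := (R.up_spec hr (hup _ n2 i)).1
    rwa [fb_app, a_inv] at this
  have hyy : (aa (x i) (g i) (fQ q x g i) ^ r) y = x i z := by
    rw [← R.fa_succ, hy, a_inv]
  have c4 : (aa (x i) (g i) (fQ q x g i) ^ (r + 1)) y < x i (x i ((g i ^ r) y)) := by
    rw [← R.fa_succ, pow_s, ← R.fab' i y]
    exact (fa q x g (i + 1)).lt_iff_lt.mpr (R.up_spec hr (hup y ny (i + 1))).2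
  have c5 : ∀ m, y ≤ m → m ≤ z → g i m = m → m < x i m := by
    intro m h1 h2 h3
    have nm : Near x g p m := fun k hk =>
      ⟨fun h4 => ((ny k hk).1 h4).trans_le h1, fun h4 => h2.trans_lt ((nz k hk).2 h4)⟩
    have := C m nm
    rwa [fix_pow h3] at this
  have A := potA (fol i) c1 c2 c3
  have B := potB (fol i) hyy c1 c2 c5 c4
  have fin : ∀ v, (z < v ∨ z < ((aa (x i) (g i) (fQ q x g i) * g i) ^ r) v) →
      min z ((fa q x g i ^ r)⁻¹ z) < v := by
    rintro v (h1 | h1)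
    · exact (min_le_left _ _).trans_lt h1
    · refine (min_le_right _ _).trans_lt ?_
      rw [← (fa q x g i ^ r).lt_iff_lt, a_inv]
      exact h1
  exact lt_min (fin _ A) (fin _ B)

theorem Rel.no_up [NeZero n] (R : Rel q r x g) (hr : 1 ≤ r) (i : ZMod n) (p : Ω) :
    ¬ Up q r x g i p := by
  intro h
  exact no_incr (f := fun j => min (fb q r x g j p) (((fa q x g j) ^ r)⁻¹ (fb q r x g j p)))
    (fun j => R.pot hr (R.up_all hr h j))

theorem Rel.no_down [NeZero n] (R : Rel q r x g) (hr : 1 ≤ r) (i : ZMod n) (p : Ω) :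
    ¬ Down q r x g i p := by
  intro h
  exact (R.map (dualHom Ω)).no_up hr i (OrderDual.toDual p) (down_dual h)

/-- Every point is fixed by all `x i`, `g i`. -/
theorem Rel.fixed [NeZero n] (R : Rel q r x g) (hr : 1 ≤ r) (i : ZMod n) (p : Ω) :
    x i p = p ∧ g i p = p :=
  R.glob hr (R.no_up hr i p) (R.no_down hr i p) i

end chain

end Pool.Agent.Q31.PK
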