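import Pool.Agent.Q31.PK.Chain
import Pool.Agent.Q31.IT.Group

set_option autoImplicit false

/-!
# Left-ordered groups and the relations of the pretzel knots P(3, -(2q+3), 2r+1)
-/

namespace Pool.Agent.Q31.PK

open Pool.Agent.W705.Borr Pool.Agent.TH821.Chain Pool.Agent.TH821.Cyc Pool.Agent.Q31.IT

section act
variable {H : Type*} [Group H] [LinearOrder H] (hinv : ∀ a b c : H, a ≤ b ↔ c * a ≤ c * b)

include hinv in
/-- In a left-ordered group the relations force triviality. -/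
theorem rel_trivial {n : ℕ} [NeZero n] {q r : ℕ} (hr : 1 ≤ r) {x g : ZMod n → H}
    (R : Rel q r x g) (i : ZMod n) : x i = 1 ∧ g i = 1 := by
  have h := (R.map (actHom hinv)).fixed hr i
  exact ⟨eq_one_of_act hinv _ fun v => (h v).1, eq_one_of_act hinv _ fun v => (h v).2⟩

end act

section kernel
variable {G : Type*} [Group G] {n : ℕ}

/-- Homomorphisms from the kernel of `d` to a left-ordered group are trivial. -/
theorem hom_trivial (hn : 0 < n) {s X Y : G} (hs : s ^ n = 1)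
    (hgen : ∀ K : Subgroup G, s ∈ K → X ∈ K → Y ∈ K → K = ⊤)
    (d : G →* Multiplicative (ZMod n)) (ds : d s = Multiplicative.ofAdd 1) (dX : d X = 1)
    (dY : d Y = 1) (q r : ℕ) (hr : 1 ≤ r)
    (A : s * (X * Y * X⁻¹ * ((X * Y⁻¹) ^ q)⁻¹ * Y) * s⁻¹ = X * Y * X⁻¹ * ((X * Y⁻¹) ^ q)⁻¹)
    (B : s * (Y⁻¹ * (X * Y⁻¹) ^ q * X * Y ^ r) * s⁻¹ = X * (Y⁻¹ * (X * Y⁻¹) ^ q * X * Y ^ r))
    {H : Type*} [Group H] [LinearOrder H] (hinv : ∀ a b c : H, a ≤ b ↔ c * a ≤ c * b)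
    (φ : d.ker →* H) (g : d.ker) : φ g = 1 := by
  have : NeZero n := ⟨hn.ne'⟩
  set X' : d.ker := ⟨X, dX⟩ with hX'
  set Y' : d.ker := ⟨Y, dY⟩ with hY'
  have key : ∀ (i : ZMod n) (x y : d.ker), s * x.1 * s⁻¹ = y.1 →
      φ (Pool.Agent.TH821.Hex.ck d s (i + 1) x) = φ (Pool.Agent.TH821.Hex.ck d s i y) := by
    intro i x y hxy
    congr 1
    apply Subtype.ext
    show cj s x.1 (i + 1) = cj s y.1 i
    rw [Pool.Agent.TH821.Hex.cj_shift hn hs, hxy]
  have R : Rel q r (fun i => φ (Pool.Agent.TH821.Hex.ck d s i X'))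
      (fun i => φ (Pool.Agent.TH821.Hex.ck d s i Y')) := by
    constructor
    · intro i
      have := key i (X' * Y' * X'⁻¹ * ((X' * Y'⁻¹) ^ q)⁻¹ * Y')
        (X' * Y' * X'⁻¹ * ((X' * Y'⁻¹) ^ q)⁻¹) A
      simpa only [map_mul, map_inv, map_pow] using this
    · intro i
      have := key i (Y'⁻¹ * (X' * Y'⁻¹) ^ q * X' * Y' ^ r)
        (X' * (Y'⁻¹ * (X' * Y'⁻¹) ^ q * X' * Y' ^ r)) B
      simpa only [map_mul, map_inv, map_pow] using this
  have triv := fun i => rel_trivial hinv hr R i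
  have h1 : N n s X Y ≤ φ.ker.map d.ker.subtype := by
    unfold N
    rw [Subgroup.closure_le]
    rintro _ (⟨i, rfl⟩ | ⟨i, rfl⟩)
    · exact ⟨Pool.Agent.TH821.Hex.ck d s i X', (triv i).1, rfl⟩
    · exact ⟨Pool.Agent.TH821.Hex.ck d s i Y', (triv i).2, rfl⟩
  obtain ⟨g', hg', hgg⟩ := h1 (ker_le hn hs hgen d ds dX dY g.2)
  have : g' = g := Subtype.ext hgg
  rw [← this]; exact hg'

end kernel

end Pool.Agent.Q31.PK
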