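import Pool.Agent.Q31.IT.Chain

set_option autoImplicit false

/-!
# One stage of the chain of the pretzel knots P(3, -(2q+1), 2r+1)

`x, g, Q` are order automorphisms of a complete linear order; `Q` follows `u = x g⁻¹` (in the
application `g` is the inverse of the generator `w` and `Q = u ^ (q-1)`).  The surface group is
generated by `a = x g x⁻¹ Q⁻¹ g`, `b = g⁻¹ Q x g ^ r` before the stage and by
`a' = x g x⁻¹ Q⁻¹`, `b' = x b` after the stage.
-/

namespace Pool.Agent.Q31.PK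

open Pool.Agent.TH821.Hex Pool.Agent.Q31.IT

variable {Ω : Type*} [CompleteLinearOrder Ω]

theorem le_inv_of {f : Ω ≃o Ω} {v : Ω} (h : f v ≤ v) : v ≤ f⁻¹ v := by
  rw [← f.le_iff_le, a_inv]; exact h

theorem inv_le_of {f : Ω ≃o Ω} {v : Ω} (h : v ≤ f v) : f⁻¹ v ≤ v := by
  rw [← f.le_iff_le, a_inv]; exact h

/-- If `f` and `g` are up on `[p, e]` and the iterate `(f g) ^ j p` is at most `e` then it passes
the iterates of `f` and of `g`. -/
theorem iter_le {f g : Ω ≃o Ω} {p e : Ω} (hpe : p ≤ e) (hf : ∀ u, p ≤ u → u ≤ e → u ≤ f u)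
    (hg : ∀ u, p ≤ u → u ≤ e → u ≤ g u) (j : ℕ) :
    p ≤ ((f * g) ^ j) p ∧ (((f * g) ^ j) p ≤ e → (g ^ j) p ≤ ((f * g) ^ j) p ∧
      (f ^ j) p ≤ ((f * g) ^ j) p) := by
  induction j with
  | zero => exact ⟨le_rfl, fun _ => ⟨le_rfl, le_rfl⟩⟩
  | succ j ih =>
    obtain ⟨h1, h2⟩ := ih
    rw [pow_s, pow_s, pow_s, ma]
    set u := ((f * g) ^ j) p with hu
    have hfe : e ≤ f e := hf e hpe le_rfl
    have hge : e ≤ g e := hg e hpe le_rfl
    rcases le_or_gt e u with h3 | h3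
    · have h4 : f e ≤ f (g e) := f.le_iff_le.mpr hge
      have h5 : f (g e) ≤ f (g u) := f.le_iff_le.mpr (g.le_iff_le.mpr h3)
      refine ⟨hpe.trans (hfe.trans (h4.trans h5)), fun h6 => ?_⟩
      have e1 : f e = e := le_antisymm (h4.trans (h5.trans h6)) hfe
      have e2 : g e = e := f.injective (le_antisymm ((h5.trans h6).trans hfe) h4)
      have e3 : g u ≤ g e := by
        rw [← f.le_iff_le]
        exact h6.trans (hfe.trans h4)
      have e4 : u = e := le_antisymm (g.le_iff_le.mp e3) h3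
      rw [e4] at h2 ⊢
      obtain ⟨h7, h8⟩ := h2 le_rfl
      have h9 := g.le_iff_le.mpr h7
      have h10 := f.le_iff_le.mpr h8
      rw [e2] at h9 ⊢
      rw [e1] at h10 ⊢
      exact ⟨h9, h10⟩
    · obtain ⟨h4, h5⟩ := h2 h3.le
      have h6 : u ≤ g u := hg u h1 h3.le
      have h7 : f u ≤ f (g u) := f.le_iff_le.mpr h6
      refine ⟨(h1.trans (hf u h1 h3.le)).trans h7, fun h8 => ⟨?_, ?_⟩⟩
      · have h9 : g u ≤ e := by
          by_contra h9
          rw [not_le] at h9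
          exact absurd h8 (not_le.mpr (hfe.trans_lt (f.lt_iff_lt.mpr h9)))
        exact (g.le_iff_le.mpr h4).trans (hf _ (h1.trans h6) h9)
      · exact (f.le_iff_le.mpr h5).trans h7

/-- `a'`. -/
def aa (x g Q : Ω ≃o Ω) : Ω ≃o Ω := x * g * x⁻¹ * Q⁻¹

section stage
variable {x g Q : Ω ≃o Ω} (hQ : Follows (x * g⁻¹) Q)

theorem aa_app (v : Ω) : aa x g Q v = x (g (x⁻¹ (Q⁻¹ v))) := rfl

include hQ

theorem key (s : Ω) : aa x g Q (x (g⁻¹ (Q s))) = x s := by
  have h : x (g⁻¹ (Q s)) = Q (x (g⁻¹ s)) := hQ.comm s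
  rw [h, aa_app, inv_a, inv_a, a_inv]

theorem aa_down {y : Ω} (h1 : g y ≤ y) (h2 : g y ≤ x y) : aa x g Q (x y) ≤ x y := by
  have h3 : x y ≤ (x * g⁻¹) (x y) := by
    rw [ma, x.le_iff_le, ← g.le_iff_le, a_inv]; exact h2
  have h4 : Q⁻¹ (x y) ≤ x y := inv_le_of (hQ.up _ h3)
  rw [aa_app]
  have h5 : x⁻¹ (Q⁻¹ (x y)) ≤ y := by
    rw [← x.le_iff_le, a_inv]; exact h4
  exact x.le_iff_le.mpr ((g.le_iff_le.mpr h5).trans h1)

theorem aa_up {v : Ω} (h1 : x (g⁻¹ v) ≤ v) (h2 : x⁻¹ v < g (x⁻¹ v)) : v < aa x g Q v := by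
  have h3 : v ≤ Q⁻¹ v := le_inv_of (hQ.down _ h1)
  rw [aa_app]
  have h4 : x⁻¹ v ≤ x⁻¹ (Q⁻¹ v) := x⁻¹.le_iff_le.mpr h3
  have h5 := x.lt_iff_lt.mpr (h2.trans_le (g.le_iff_le.mpr h4))
  rwa [a_inv] at h5

theorem uQ_gt {y s : Ω} (h : y < x (g⁻¹ y)) (hy : y ≤ s) : y < x (g⁻¹ (Q s)) := by
  rcases le_or_gt (x (g⁻¹ s)) s with h1 | h1
  · obtain ⟨m, m1, m2, m3⟩ := fixUD (x * g⁻¹) hy h h1
    have h2 : Q m = m := hQ.fix m3
    have h3 : m ≤ Q s := by
      have := Q.le_iff_le.mpr m2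
      rwa [h2] at this
    have h4 : (x * g⁻¹) m ≤ (x * g⁻¹) (Q s) := (x * g⁻¹).le_iff_le.mpr h3
    rw [m3] at h4
    exact m1.trans_le h4
  · have h2 : s ≤ Q s := hQ.up s h1.le
    have h4 : (x * g⁻¹) s ≤ (x * g⁻¹) (Q s) := (x * g⁻¹).le_iff_le.mpr h2
    exact (hy.trans_lt h1).trans_le h4

/-- The backward step. -/
theorem back {r : ℕ} (hr : 1 ≤ r) {p s : Ω} (hs : s = x ((g ^ r) p))
    (H1 : x (g⁻¹ (Q s)) ≤ (aa x g Q ^ r) p) (H2 : p ≤ x s)
    (H3 : ¬ (p = x s ∧ x (g⁻¹ (Q s)) = (aa x g Q ^ r) p)) :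
    p < g p ∧ p < x ((g ^ (r + 1)) p) ∧ g⁻¹ (Q s) < ((aa x g Q * g) ^ r) p := by
  set q := x⁻¹ p with hq
  have hxq : x q = p := by rw [hq, a_inv]
  have hqs : q ≤ s := by rw [← x.le_iff_le, hxq]; exact H2
  have hT := key hQ s
  set T := x (g⁻¹ (Q s)) with hTd
  -- `u` is up at `s` if and only if `s` is at least `g ^ (r+1) p`
  have hus : ∀ {v : Ω}, g v ≤ s → x v ≤ x (g⁻¹ s) := by
    intro v hv
    rw [x.le_iff_le, ← g.le_iff_le, a_inv]; exact hv
  have husT : s ≤ x (g⁻¹ s) → x (g⁻¹ s) ≤ T := by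
    intro h
    have h2 : s ≤ Q s := hQ.up s h
    exact x.le_iff_le.mpr (g⁻¹.le_iff_le.mpr h2)
  -- orbit bounds
  have orb : ∀ n : Ω, g n ≤ n → g n ≤ x n → p ≤ x n → T ≤ x n := by
    intro n h1 h2 h3
    have h4 := aa_down hQ h1 h2
    exact H1.trans (((aa x g Q ^ r).le_iff_le.mpr h3).trans (down_pow h4 r))
  -- `w` is down at `p`
  have C0 : p < g p := by
    by_contra h
    rw [not_lt] at h
    have h1 : (g ^ r) p ≤ p := down_pow h r
    have h1' : (g ^ (r + 1)) p ≤ (g ^ r) p := by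
      rw [pow_s']; exact (g ^ r).le_iff_le.mpr h
    have h2 : p ≤ x p := by
      by_contra h2
      rw [not_le] at h2
      have h3 : s ≤ x p := by rw [hs]; exact x.le_iff_le.mpr h1
      have h4 : x s ≤ x p := x.le_iff_le.mpr (h3.trans h2.le)
      exact absurd (H2.trans h4) (not_le.mpr h2)
    have hqp : q ≤ p := by rw [← x.le_iff_le, hxq]; exact h2
    have h3 : (g ^ (r + 1)) p ≤ s := by
      by_contra h3
      rw [not_le] at h3
      have h4 : q ≤ (g ^ r) p := hqs.trans (h3.le.trans h1')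
      have h5 : p ≤ s := by
        rw [← hxq, hs]; exact x.le_iff_le.mpr h4
      exact absurd (h5.trans_lt (h3.trans_le (h1'.trans h1))) (lt_irrefl _)
    have h4 : s ≤ x (g⁻¹ s) := by
      have := hus (v := (g ^ r) p) (by rw [← pow_s]; exact h3)
      rwa [← hs] at this
    have h5 := husT h4
    rcases le_or_gt (g q) q with h6 | h6
    · have h7 : p ≤ x (g⁻¹ s) := by
        have := hus (v := q) (h6.trans hqs)
        rwa [hxq] at this
      have h8 : aa x g Q p ≤ p := by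
        have := aa_down hQ (y := q) h6 (by rw [hxq]; exact h6.trans hqp)
        rwa [hxq] at this
      have h9 : (aa x g Q ^ r) p ≤ p := down_pow h8 r
      have e1 : T = p := le_antisymm (H1.trans h9) (h7.trans h5)
      apply H3
      constructor
      · rw [e1] at hT
        exact le_antisymm H2 (by rw [← hT]; exact h8)
      · exact le_antisymm H1 (by rw [e1]; exact h9)
    · obtain ⟨n, n1, n2, n3⟩ := fixUD g hqp h6 h
      have h7 : p < x n := by rw [← hxq]; exact x.lt_iff_lt.mpr n1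
      have h8 : x n ≤ s := by
        rw [hs]; exact x.le_iff_le.mpr (fix_le n3 n2 r)
      have h9 : n < s := n2.trans_lt (h7.trans_le h8)
      have h10 : x n < x (g⁻¹ s) := by
        rw [x.lt_iff_lt, ← g.lt_iff_lt, a_inv, n3]; exact h9
      have h11 := orb n n3.le (by rw [n3]; exact n2.trans h7.le) h7.le
      exact absurd (h10.trans_le (h5.trans h11)) (lt_irrefl _)
  have hP : (g ^ r) p < (g ^ (r + 1)) p := by
    rw [pow_s']; exact (g ^ r).lt_iff_lt.mpr C0
  have hpP : p < (g ^ r) p := by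
    obtain ⟨k, rfl⟩ : ∃ k, r = k + 1 := ⟨r - 1, by omega⟩
    rw [pow_s']
    exact C0.trans_le (up_pow (g.le_iff_le.mpr C0.le) k)
  refine ⟨C0, ?_, ?_⟩
  · by_contra h
    rw [not_lt] at h
    have h1 : (g ^ (r + 1)) p ≤ q := by rw [← x.le_iff_le, hxq]; exact h
    have h2 : s ≤ p := by
      rw [hs]
      exact (x.le_iff_le.mpr hP.le).trans h
    exact absurd ((h1.trans hqs).trans h2) (not_le.mpr (hpP.trans hP))
  · by_contra hcon
    rw [not_lt] at hcon
    set t := g⁻¹ (Q s) with ht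
    -- `t < s`
    have hts : t < s := by
      by_contra h
      rw [not_lt] at h
      have h1 : x s ≤ T := x.le_iff_le.mpr h
      have h2 : aa x g Q T ≤ T := by rw [hT]; exact h1
      have h3 : p ≤ T := H2.trans h1
      have h4 : (aa x g Q ^ r) T ≤ T := down_pow h2 r
      have h5 : (aa x g Q ^ r) T ≤ (aa x g Q ^ r) p := h4.trans H1
      have h6 : p = T := le_antisymm h3 ((aa x g Q ^ r).le_iff_le.mp h5)
      apply H3
      constructor
      · exact le_antisymm H2 (by rw [h6]; exact h1)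
      · refine le_antisymm H1 ?_
        exact ((aa x g Q ^ r).le_iff_le.mpr h3).trans h4
    have hps : p < s := by
      by_contra h
      rw [not_lt] at h
      have h1 : (g ^ r) p ≤ q := by
        rw [← x.le_iff_le, hxq, ← hs]; exact h
      exact absurd ((h1.trans hqs).trans h) (not_le.mpr hpP)
    -- `g` is up on `[p, s]`
    have hG : ∀ y, p ≤ y → y ≤ s → y < g y := by
      intro y h1 h2
      by_contra h3
      rw [not_lt] at h3
      obtain ⟨n, n1, n2, n3⟩ := fixUD g h1 C0 h3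
      have n4 : n ≤ s := n2.trans h2
      have h4 : (g ^ (r + 1)) p < n := lt_fix n3 n1 (r + 1)
      have h5 : s < x n := by
        rw [hs]; exact x.lt_iff_lt.mpr (lt_fix n3 n1 r)
      have h6 : s ≤ x (g⁻¹ s) := by
        have := hus (v := (g ^ r) p) (by rw [← pow_s]; exact h4.le.trans n4)
        rwa [← hs] at this
      have h7 : x n ≤ x (g⁻¹ s) := hus (by rw [n3]; exact n4)
      have h8 := h7.trans (husT h6)
      have h9 : aa x g Q (x n) ≤ x n := aa_down hQ n3.le (by rw [n3]; exact n4.trans h5.le)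
      have h10 : p < x n := hps.trans h5
      have h11 : (aa x g Q ^ r) p < x n :=
        ((aa x g Q ^ r).lt_iff_lt.mpr h10).trans_le (down_pow h9 r)
      exact absurd (h8.trans (H1.trans_lt h11).le) (not_le.mpr (H1.trans_lt h11) |> fun h => by
        exact fun _ => h h8)
    -- `g` is up on `[q, g ^ r p]`
    have hG2 : ∀ y, q ≤ y → y ≤ (g ^ r) p → y < g y := by
      intro y h1 h2
      rcases le_or_gt p y with h3 | h3
      · exact up_on C0 r h3 h2
      · by_contra h4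
        rw [not_lt] at h4
        obtain ⟨n, n1, n2, n3⟩ := fixNU g h3.le h4 C0
        have h5 : p ≤ x n := by rw [← hxq]; exact x.le_iff_le.mpr (h1.trans n1)
        have h6 : x n < s := by
          rw [hs]; exact x.lt_iff_lt.mpr (n2.trans hpP)
        have h7 : x n < x (g⁻¹ (x n)) := by
          rw [x.lt_iff_lt, ← g.lt_iff_lt, a_inv, n3]; exact n2.trans_le h5
        have h8 := uQ_gt hQ h7 h6.le
        exact absurd (orb n n3.le (by rw [n3]; exact n2.le.trans h5) h5) (not_le.mpr h8)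
    have hF : ∀ y, p ≤ y → y ≤ s → x⁻¹ y < g (x⁻¹ y) := by
      intro y h1 h2
      apply hG2
      · exact x⁻¹.le_iff_le.mpr h1
      · rw [← x.le_iff_le, a_inv, ← hs]; exact h2
    have hTs : T < x s := x.lt_iff_lt.mpr hts
    -- `a'` is up at `p`
    have hA0 : p < aa x g Q p := by
      by_contra h
      rw [not_lt] at h
      have h1 : T ≤ p := H1.trans (down_pow h r)
      obtain ⟨n, n1, n2, n3⟩ := fixUD (aa x g Q) h1 (by rw [hT]; exact hTs) h
      have h2 : x s < n := by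
        rw [← hT]
        have := (aa x g Q).lt_iff_lt.mpr n1
        rwa [n3] at this
      exact absurd (H2.trans h2.le) (not_le.mpr (h2.trans_le n2) |> fun h => by
        intro _; exact h H2)
    have hA : ∀ y, p ≤ y → y ≤ s → y ≤ aa x g Q y := by
      intro y h1 h2
      by_contra h3
      rw [not_le] at h3
      obtain ⟨n, n1, n2, n3⟩ := fixUD (aa x g Q) h1 hA0 h3.le
      have h4 : T < n := H1.trans_lt (lt_fix n3 n1 r)
      have n4 : n ≤ s := n2.trans h2
      have h5 : n < x (g⁻¹ n) := by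
        by_contra h5
        rw [not_lt] at h5
        have := aa_up hQ h5 (hF n n1.le n4)
        rw [n3] at this
        exact lt_irrefl _ this
      exact absurd (uQ_gt hQ h5 n4) (not_lt.mpr h4.le)
    obtain ⟨-, h1⟩ := iter_le (f := aa x g Q) (g := g) hps.le hA (fun y h1 h2 => (hG y h1 h2).le) r
    obtain ⟨h2, h3⟩ := h1 (hcon.trans hts.le)
    have h4 : s ≤ T := by
      rw [hs]; exact x.le_iff_le.mpr (h2.trans hcon)
    exact absurd (h4.trans (H1.trans (h3.trans hcon))) (not_le.mpr hts)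

/-- The forward step: `b p > p`, `a b p > p`, `b p > a ^ r p` before the stage, `b' p ≤ p` and
`a' b' p ≤ p` after the stage: impossible. -/
theorem forth {r : ℕ} {p s : Ω} (hs : s = x ((g ^ r) p))
    (hb : p < g⁻¹ (Q s)) (hc : p < x ((g ^ (r + 1)) p))
    (ha : ((aa x g Q * g) ^ r) p < g⁻¹ (Q s))
    (hb' : x (g⁻¹ (Q s)) ≤ p) (hc' : x s ≤ p) : False := by
  set t := g⁻¹ (Q s) with ht
  have h1 : x p < p := (x.lt_iff_lt.mpr hb).trans_le hb'
  have C0 : p < g p := by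
    by_contra h
    rw [not_lt] at h
    have h2 : x ((g ^ (r + 1)) p) ≤ x p := x.le_iff_le.mpr (down_pow h _)
    exact absurd (hc.trans_le h2) (not_lt.mpr h1.le)
  have hP : p < (g ^ (r + 1)) p := by
    rw [pow_s']
    exact C0.trans_le (up_pow (g.le_iff_le.mpr C0.le) r)
  have hps : p < s := by
    by_contra h
    rw [not_lt] at h
    have h2 : g p < Q s := by
      rw [← a_inv g (Q s)]; exact g.lt_iff_lt.mpr hb
    have h3 : s < x (g⁻¹ s) := by
      by_contra h3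
      rw [not_lt] at h3
      have h4 : Q s ≤ s := hQ.down s h3
      exact absurd (h2.trans_le (h4.trans h)) (not_lt.mpr C0.le)
    have h4 : (g ^ r) p < g⁻¹ s := by
      rw [← x.lt_iff_lt, ← hs]; exact h3
    have h5 : (g ^ (r + 1)) p < s := by
      rw [pow_s, ← a_inv g s]; exact g.lt_iff_lt.mpr h4
    exact absurd (h5.trans_le h) (not_lt.mpr hP.le)
  have h3 : s < (g ^ r) p := by
    rw [← x.lt_iff_lt, ← hs]; exact hc'.trans_lt hps
  have hup : ∀ v, p ≤ v → v ≤ (g ^ r) p → v < g v := fun v h1 h2 => up_on C0 _ h1 h2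
  have hu : ∀ y, p ≤ y → y ≤ s → x (g⁻¹ y) ≤ y := by
    intro y h4 h5
    have h6 : g⁻¹ y ≤ s := (inv_le_of (hup y h4 (h5.trans h3.le)).le).trans h5
    exact ((x.le_iff_le.mpr h6).trans hc').trans h4
  have hts : t < s := by
    have h4 : Q s ≤ s := hQ.down s (hu s hps.le le_rfl)
    have h5 : g⁻¹ s < s := by
      rw [← g.lt_iff_lt, a_inv]; exact hup s hps.le h3.le
    exact (g⁻¹.le_iff_le.mpr h4).trans_lt h5
  have hA : ∀ y, p ≤ y → y ≤ s → y ≤ aa x g Q y := by
    intro y h4 h5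
    refine (aa_up hQ (hu y h4 h5) ?_).le
    apply hup
    · rw [← x.le_iff_le, a_inv]; exact h1.le.trans h4
    · rw [← x.le_iff_le, a_inv, ← hs]; exact h5
  obtain ⟨-, h4⟩ := iter_le (f := aa x g Q) (g := g) hps.le hA
    (fun y h1 h2 => (hup y h1 (h2.trans h3.le)).le) r
  obtain ⟨h5, -⟩ := h4 (ha.trans hts).le
  exact absurd (h5.trans_lt (ha.trans (hts.trans h3))) (lt_irrefl _)

/-- If `x z ≤ z` then `g` and `a'` are up on `[x z, z]`. -/
theorem pot_aux {r : ℕ} {z : Ω} (h1 : z < x ((g ^ (r + 1)) z))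
    (h2 : ((g ^ (r + 1))⁻¹) z < x z) (hx : x z ≤ z) :
    z < g z ∧ (∀ v, x z ≤ v → v ≤ z → v < g v) ∧ (∀ v, x z ≤ v → v ≤ z → x (g⁻¹ v) ≤ v) ∧
      (∀ v, x z ≤ v → v ≤ z → v < aa x g Q v) := by
  have C0 : z < g z := by
    by_contra h
    rw [not_lt] at h
    have h3 : x ((g ^ (r + 1)) z) ≤ x z := x.le_iff_le.mpr (down_pow h _)
    exact absurd (h1.trans_le h3) (not_lt.mpr hx)
  set e := ((g ^ (r + 1))⁻¹) z with he
  have hz : (g ^ (r + 1)) e = z := by rw [he, a_inv]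
  have C1 : e < g e := by
    rw [← (g ^ (r + 1)).lt_iff_lt, ← pow_s' g (r + 1) e, pow_s g (r + 1) e, hz]
    exact C0
  have hg : ∀ v, x z ≤ v → v ≤ z → v < g v := fun v h3 h4 =>
    up_on C1 (r + 1) (h2.le.trans h3) (by rw [hz]; exact h4)
  have hu : ∀ v, x z ≤ v → v ≤ z → x (g⁻¹ v) ≤ v := by
    intro v h3 h4
    have h5 : g⁻¹ v ≤ z := (inv_le_of (hg v h3 h4).le).trans h4
    exact (x.le_iff_le.mpr h5).trans h3
  refine ⟨C0, hg, hu, ?_⟩
  intro v h3 h4
  refine aa_up hQ (hu v h3 h4) ?_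
  apply up_on C0 (r + 1)
  · rw [← x.le_iff_le, a_inv]; exact h3
  · rw [← x.le_iff_le, a_inv]; exact h4.trans h1.le

theorem potA {r : ℕ} {z : Ω} (h1 : z < x ((g ^ (r + 1)) z))
    (h2 : ((g ^ (r + 1))⁻¹) z < x z) (h3 : ((g ^ r)⁻¹) z < g⁻¹ (Q (x z))) :
    z < x z ∨ z < ((aa x g Q * g) ^ r) (x z) := by
  rcases lt_or_ge z (x z) with hx | hx
  · exact Or.inl hx
  · right
    obtain ⟨C0, hg, hu, hA⟩ := pot_aux hQ h1 h2 hx
    by_contra hcon
    rw [not_lt] at hcon
    obtain ⟨-, h4⟩ := iter_le (f := aa x g Q) (g := g) hx (fun y h1 h2 => (hA y h1 h2).le)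
      (fun y h1 h2 => (hg y h1 h2).le) r
    obtain ⟨h5, -⟩ := h4 hcon
    have h6 : Q (x z) ≤ x z := hQ.down _ (hu _ le_rfl hx)
    have h7 : ((g ^ r)⁻¹) z < g⁻¹ (x z) := h3.trans_le (g⁻¹.le_iff_le.mpr h6)
    have h8 : g⁻¹ (x z) < x z := by
      rw [← g.lt_iff_lt, a_inv]; exact hg _ le_rfl hx
    have h9 : z < (g ^ r) (x z) := by
      rw [← (g ^ r)⁻¹.lt_iff_lt, inv_a]; exact h7.trans h8
    exact absurd (h5.trans hcon) (not_le.mpr h9)

theorem potB {r : ℕ} {z y : Ω} (hy : (aa x g Q ^ r) y = x z)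
    (h1 : z < x ((g ^ (r + 1)) z))
    (h2 : ((g ^ (r + 1))⁻¹) z < x z) (hn : ∀ n, y ≤ n → n ≤ z → g n = n → n < x n)
    (h4 : (aa x g Q ^ (r + 1)) y < x (x ((g ^ r) y))) :
    z < y ∨ z < ((aa x g Q * g) ^ r) y := by
  by_contra hcon
  rw [not_or, not_lt, not_lt] at hcon
  obtain ⟨c1, c2⟩ := hcon
  rcases le_or_gt (g z) z with h5 | h5
  · have h6 : z < x z := h1.trans_le (x.le_iff_le.mpr (down_pow h5 _))
    have h7 : aa x g Q (x z) ≤ x z := aa_down hQ h5 (h5.trans h6.le)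
    have h8 : (aa x g Q ^ r) (x z) ≤ (aa x g Q ^ r) y := by rw [hy]; exact down_pow h7 r
    exact absurd (((aa x g Q ^ r).le_iff_le.mp h8).trans c1) (not_le.mpr h6)
  · have hg : ∀ v, y ≤ v → v ≤ z → v ≤ g v := by
      intro v h6 h7
      by_contra h8
      rw [not_le] at h8
      obtain ⟨n, n1, n2, n3⟩ := fixNU g h7 h8.le h5
      have h9 : n < x n := hn n (h6.trans n1) n2.le n3
      have h10 : aa x g Q (x n) ≤ x n := aa_down hQ n3.le (by rw [n3]; exact h9.le)
      have h11 : (aa x g Q ^ r) y ≤ x n :=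
        ((aa x g Q ^ r).le_iff_le.mpr ((h6.trans n1).trans h9.le)).trans (down_pow h10 r)
      rw [hy, x.le_iff_le] at h11
      exact absurd n2 (not_lt.mpr h11)
    rcases le_or_gt (x z) z with hx | hx
    · obtain ⟨C0, -, hu, hA⟩ := pot_aux hQ h1 h2 hx
      have h6 : x z < aa x g Q (x z) := hA _ le_rfl hx
      have h7 : y < aa x g Q y := by
        rw [← (aa x g Q ^ r).lt_iff_lt, ← pow_s' (aa x g Q) r y, pow_s (aa x g Q) r y, hy]
        exact h6
      have hA2 : ∀ v, y ≤ v → v ≤ z → v ≤ aa x g Q v := by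
        intro v h8 h9
        rcases le_or_gt (x z) v with h10 | h10
        · exact (hA v h10 h9).le
        · exact (up_on h7 r h8 (by rw [hy]; exact h10.le)).le
      obtain ⟨-, h8⟩ := iter_le (f := aa x g Q) (g := g) c1 hA2 hg r
      obtain ⟨h9, -⟩ := h8 c2
      have h10 : x (x ((g ^ r) y)) ≤ x (x z) :=
        x.le_iff_le.mpr (x.le_iff_le.mpr (h9.trans c2))
      rw [pow_s, hy, aa_app] at h4
      have h11 := x.lt_iff_lt.mp (h4.trans_le h10)
      have h12 : x z ≤ Q⁻¹ (x z) := le_inv_of (hQ.down _ (hu _ le_rfl hx))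
      have h13 : z ≤ x⁻¹ (Q⁻¹ (x z)) := by
        rw [← x.le_iff_le, a_inv]; exact h12
      exact absurd ((C0.trans_le (g.le_iff_le.mpr h13)).trans h11) (not_lt.mpr hx)
    · have h7 : y < aa x g Q y := by
        by_contra h7
        rw [not_lt] at h7
        have := down_pow h7 r
        rw [hy] at this
        exact absurd (hx.trans_le (this.trans c1)) (lt_irrefl _)
      have hA2 : ∀ v, y ≤ v → v ≤ z → v ≤ aa x g Q v := fun v h8 h9 =>
        (up_on h7 r h8 (by rw [hy]; exact h9.trans hx.le)).le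
      obtain ⟨-, h8⟩ := iter_le (f := aa x g Q) (g := g) c1 hA2 hg r
      obtain ⟨-, h9⟩ := h8 c2
      rw [hy] at h9
      exact absurd (h9.trans c2) (not_le.mpr hx)

end stage

end Pool.Agent.Q31.PK
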